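import Pool.Agent.Y997.NW.Stm

set_option autoImplicit false

open MeasureTheory Set Topology Filter
open scoped ContDiff NNReal ENNReal

/-! # A lower bound for curves that contain a piece of a slab line -/

namespace Pool.Agent.Y309.NW

open Pool.Agent.W581.Cyc Pool.Agent.Y997.NW

private noncomputable def ellL : C2 →L[ℂ] ℂ :=
  EuclideanSpace.proj 0 + (2 : ℂ) • EuclideanSpace.proj 1

private theorem ellL_apply (z : C2) : ellL z = ell z := by
  unfold ellL ell
  simp

private theorem ell_sub (z w : C2) : ell (z - w) = ell z - ell w := by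
  rw [← ellL_apply, ← ellL_apply, ← ellL_apply, map_sub]

private theorem ellL_ne : ellL ≠ 0 := by
  intro h
  have h1 : ellL (EuclideanSpace.single 0 1) = 0 := by rw [h]; rfl
  rw [ellL_apply] at h1
  unfold ell at h1
  simp at h1

private theorem reg_of_line {V : Set C2} {z₀ : C2} (hz : z₀ ∈ V) (h : LineAt V z₀) :
    z₀ ∈ regularPoints V := by
  obtain ⟨N, hN, hVN⟩ := h
  refine ⟨hz, interior N, isOpen_interior, mem_interior_iff_mem_nhds.2 hN,
    fun w => ellL w - ellL z₀, ?_, ?_, ?_⟩
  · intro w _
    exact (ellL.analyticAt w).sub analyticAt_const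
  · have h1 : fderiv ℂ (fun w => ellL w - ellL z₀) z₀ = ellL :=
      (ellL.hasFDerivAt.sub_const _).fderiv
    rw [h1]
    exact ellL_ne
  · ext w
    simp only [mem_inter_iff, mem_ofPred_eq, ellL_apply]
    constructor
    · rintro ⟨hwV, hw⟩
      have h2 : w ∈ V ∩ N := ⟨hwV, interior_subset hw⟩
      rw [hVN] at h2
      exact ⟨hw, by rw [h2.2, sub_self]⟩
    · rintro ⟨hw, hw2⟩
      have h2 : w ∈ {w ∈ N | ell w = ell z₀} := ⟨interior_subset hw, sub_eq_zero.1 hw2⟩
      rw [← hVN] at h2
      exact ⟨h2.1, hw⟩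

private theorem cs_nonneg (v z : C2) : 0 ≤ cs v z := sq_nonneg _

private theorem cs_le_one (v z : C2) : cs v z ≤ 1 := by
  unfold cs
  exact Real.cos_sq_le_one _

private theorem thin_nonneg (v p : C2) (δ : ℝ) (n : ℕ) (z : C2) : 0 ≤ thin v p δ n z :=
  mul_nonneg (bump_nonneg p δ z) (pow_nonneg (cs_nonneg v z) n)

private theorem thin_le_one (v p : C2) (δ : ℝ) (n : ℕ) (z : C2) : thin v p δ n z ≤ 1 :=
  mul_le_one₀ (bump_le_one p δ z) (pow_nonneg (cs_nonneg v z) n)
    (pow_le_one₀ (cs_nonneg v z) (cs_le_one v z))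

private theorem current_thin (V : Set C2) (hm : MeasurableSet (regularPoints V ∩ unitCube))
    (v p : C2) (δ : ℝ) (n : ℕ) :
    integrationCurrent V (thinForm v p δ n).1 =
      ∫ z in regularPoints V ∩ unitCube, thin v p δ n z ∂area := by
  unfold integrationCurrent
  refine setIntegral_congr_fun hm fun z hz => ?_
  unfold tangentValue
  have h := exists_unitTangent hz.1
  have happ : ∀ e : C2, (thinForm v p δ n).1 z ![e, Complex.I • e] =
      thin v p δ n z * ‖e‖ ^ 2 := by
    intro e
    show (thin v p δ n z • kahler) ![e, Complex.I • e] = _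
    rw [ContinuousAlternatingMap.smul_apply, kahler_apply, smul_eq_mul]
  rw [dif_pos h, happ, h.choose_spec.1]
  simp

theorem t_LOW : S_LOW := by
  intro U V v z₀ hU hV hzV hline hcs
  have hz₀ := reg_of_line hzV hline
  obtain ⟨N, hN, hVN⟩ := hline
  obtain ⟨ρ, hρ, hfin⟩ := area_lt_top hz₀
  refine ⟨ρ, hρ, fun p δ hT hz => ?_⟩
  have hAm := measurableSet_regularPoints hU hV
  have hAp := isPeriodic_regularPoints hV.periodic
  have hAQ : MeasurableSet (regularPoints V ∩ unitCube) := hAm.inter measurableSet_unitCube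
  have hTm : MeasurableSet {z | D p z < δ} :=
    (isOpen_lt (contDiff_D p).continuous continuous_const).measurableSet
  have hle : area (regularPoints V ∩ {z | D p z < δ} ∩ unitCube) < ⊤ := by
    refine (area_cube_le hAp hAm Metric.isOpen_ball.measurableSet hT).trans_lt ?_
    refine (measure_mono ?_).trans_lt hfin
    exact inter_subset_inter_left _ fun z hz => hz.1
  have hCm : MeasurableSet {z : C2 | cs v z = 1} :=
    (isClosed_eq (contDiff_cs v).continuous continuous_const).measurableSet
  set R : Set C2 := regularPoints V ∩ {z | D p z < δ} ∩ {z | cs v z = 1} with hR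
  have hposA : 0 < area R := by
    have h1 : ({z | D p z < δ} ∩ {w | w ∈ V → w ∈ regularPoints V}) ∩ N ∈ 𝓝 z₀ :=
      inter_mem (inter_mem ((isOpen_lt (contDiff_D p).continuous continuous_const).mem_nhds hz)
        (regular_near hz₀)) hN
    refine (area_pos hz₀ h1).trans_le (measure_mono ?_)
    rintro w ⟨hwV, ⟨hw1, hw2⟩, hwN⟩
    refine ⟨⟨hw2 hwV, hw1⟩, ?_⟩
    have h2 : w ∈ V ∩ N := ⟨hwV, hwN⟩
    rw [hVN] at h2
    show cs v w = 1
    rw [← hcs]
    unfold cs
    rw [ell_sub, ell_sub, h2.2]
  have hper : IsPeriodicSet R := by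
    intro l hl z
    refine and_congr (and_congr (hAp l hl z) (isPeriodic_lt p δ l hl z)) ?_
    simp only [mem_ofPred_eq, cs_periodic v l hl]
  have hpos := area_pos_cube hper hposA
  have hRsub : R ∩ unitCube ⊆ regularPoints V ∩ {z | D p z < δ} ∩ unitCube :=
    inter_subset_inter_left _ inter_subset_left
  have hRm : MeasurableSet (R ∩ unitCube) :=
    ((hAm.inter hTm).inter hCm).inter measurableSet_unitCube
  refine ⟨∫ z in R ∩ unitCube, bump p δ z ∂area, ?_, fun n => ?_⟩
  · have hint : IntegrableOn (bump p δ) (R ∩ unitCube) area := by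
      refine Measure.integrableOn_of_bounded (M := 1) ((measure_mono hRsub).trans_lt hle).ne
        (contDiff_bump p δ).continuous.aestronglyMeasurable ?_
      refine Eventually.of_forall fun z => ?_
      rw [Real.norm_eq_abs, abs_of_nonneg (bump_nonneg p δ z)]
      exact bump_le_one p δ z
    rw [gt_iff_lt, setIntegral_pos_iff_support_of_nonneg_ae
      (Eventually.of_forall fun z => bump_nonneg p δ z) hint]
    refine hpos.trans_le (measure_mono ?_)
    intro z hz
    exact ⟨((bump_pos_iff p δ z).2 hz.1.1.2).ne', hz⟩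
  · rw [current_thin V hAQ]
    have hsub : regularPoints V ∩ {z | D p z < δ} ∩ unitCube ⊆ regularPoints V ∩ unitCube :=
      fun z hz => ⟨hz.1.1, hz.2⟩
    rw [setIntegral_eq_of_subset_of_forall_sdiff_eq_zero hAQ hsub (f := thin v p δ n)]
    · have hint : IntegrableOn (thin v p δ n)
          (regularPoints V ∩ {z | D p z < δ} ∩ unitCube) area := by
        refine Measure.integrableOn_of_bounded (M := 1) hle.ne
          (contDiff_thin v p δ n).continuous.aestronglyMeasurable ?_
        refine Eventually.of_forall fun z => ?_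
        rw [Real.norm_eq_abs, abs_of_nonneg (thin_nonneg v p δ n z)]
        exact thin_le_one v p δ n z
      have heq : ∫ z in R ∩ unitCube, bump p δ z ∂area =
          ∫ z in R ∩ unitCube, thin v p δ n z ∂area := by
        refine setIntegral_congr_fun hRm fun z hz => ?_
        have h3 : cs v z = 1 := hz.1.2
        show bump p δ z = bump p δ z * cs v z ^ n
        rw [h3, one_pow, mul_one]
      rw [heq]
      exact setIntegral_mono_set hint (Eventually.of_forall fun z => thin_nonneg v p δ n z)
        (Eventually.of_forall hRsub)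
    · intro z hz
      show bump p δ z * cs v z ^ n = 0
      have h4 : bump p δ z = 0 := by
        rw [bump_eq_zero_iff]
        by_contra hc
        exact hz.2 ⟨⟨hz.1.1, not_le.1 hc⟩, hz.1.2⟩
      rw [h4, zero_mul]

end Pool.Agent.Y309.NW
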